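import Mathlib
import Pool.Agent.Lib_helper99.FSP.Main

set_option autoImplicit false

/-!
Frobenius split regular local rings of every prime characteristic and every dimension at least
two which are not split F-regular.
-/

namespace Pool.Agent.Results.MP_a0fd22_al.EveryPrimeDimension

open IsLocalRing PowerSeries

/-- `F^e_* R`: the additive group of `R`, on which `r` acts as multiplication by `r ^ (p ^ e)`. -/
def FPush (R : Type) (_p _e : ℕ) : Type := R

section Defs

variable (R : Type) [CommRing R] (p : ℕ) [Fact p.Prime] [CharP R p]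

instance (e : ℕ) : AddCommGroup (FPush R p e) := inferInstanceAs (AddCommGroup R)

instance (e : ℕ) : Module R (FPush R p e) :=
  Module.compHom R (iterateFrobenius R p e : R →+* R)

/-- The element `F^e_* c` of `F^e_* R`. -/
def FPush.of (e : ℕ) : R ≃+ FPush R p e := AddEquiv.refl R

/-- Frobenius split rings. -/
def IsFrobeniusSplit : Prop :=
  ∃ φ : FPush R p 1 →ₗ[R] R, φ (FPush.of R p 1 1) = 1

/-- Split F-regular rings. -/
def IsSplitFRegular : Prop :=
  ∀ c : R, (∀ P ∈ minimalPrimes R, c ∉ P) →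
    ∃ e : ℕ, 1 ≤ e ∧ ∃ φ : FPush R p e →ₗ[R] R, φ (FPush.of R p e c) = 1

theorem smul_of (e : ℕ) (r x : R) :
    r • FPush.of R p e x = FPush.of R p e (r ^ (p ^ e) * x) := rfl

end Defs

/-! ### Power series rings -/

section Series

variable {R : Type} [CommRing R] {p : ℕ} [hp : Fact p.Prime]

/-- The coefficients of a `p`-th power in characteristic `p`. -/
theorem coeff_pow_p [CharP R p] (g : R⟦X⟧) (n : ℕ) :
    coeff n (g ^ p) = if p ∣ n then coeff (n / p) g ^ p else 0 := by
  have h : PowerSeries.map (frobenius R p) (PowerSeries.expand p hp.out.ne_zero g) = g ^ p :=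
    MvPowerSeries.map_frobenius_expand p hp.out.ne_zero
  rw [← h, coeff_map, coeff_expand]
  split_ifs
  · rfl
  · exact map_zero _

/-- The splitting on power series. -/
noncomputable def serphi (p : ℕ) (φ : R →+ R) : R⟦X⟧ →+ R⟦X⟧ where
  toFun f := PowerSeries.mk fun n => φ (coeff (p * n) f)
  map_zero' := by
    ext n
    rw [coeff_mk, map_zero, map_zero, map_zero]
  map_add' f g := by
    ext n
    rw [coeff_mk, map_add, map_add, map_add, coeff_mk, coeff_mk]

theorem serphi_mul [CharP R p] {φ : R →+ R} (h : ∀ r x : R, φ (r ^ p * x) = r * φ x)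
    (g f : R⟦X⟧) : serphi p φ (g ^ p * f) = g * serphi p φ f := by
  classical
  have hpos : 0 < p := hp.out.pos
  ext n
  change coeff n (PowerSeries.mk fun n => φ (coeff (p * n) (g ^ p * f))) =
    coeff n (g * PowerSeries.mk fun n => φ (coeff (p * n) f))
  rw [coeff_mk, coeff_mul, coeff_mul, map_sum]
  symm
  refine Finset.sum_of_injOn (fun q => (p * q.1, p * q.2)) ?_ ?_ ?_ ?_
  · intro q _ q' _ hqq
    have h1 : p * q.1 = p * q'.1 := congrArg Prod.fst hqq
    have h2 : p * q.2 = p * q'.2 := congrArg Prod.snd hqq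
    exact Prod.ext (Nat.eq_of_mul_eq_mul_left hpos h1) (Nat.eq_of_mul_eq_mul_left hpos h2)
  · intro q hq
    rw [Finset.mem_coe, Finset.HasAntidiagonal.mem_antidiagonal] at hq ⊢
    change p * q.1 + p * q.2 = p * n
    rw [← hq, Nat.mul_add]
  · intro q hq hq'
    rw [coeff_pow_p]
    split_ifs with he
    · exfalso
      apply hq'
      obtain ⟨m, hm⟩ := he
      rw [Finset.HasAntidiagonal.mem_antidiagonal] at hq
      have hq2 : p ∣ q.2 := by
        have h1 : p ∣ q.1 + q.2 := by rw [hq]; exact dvd_mul_right _ _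
        rw [hm] at h1
        exact (Nat.dvd_add_right (dvd_mul_right _ _)).1 h1
      obtain ⟨l, hl⟩ := hq2
      refine ⟨(m, l), ?_, Prod.ext hm.symm hl.symm⟩
      rw [Finset.mem_coe, Finset.HasAntidiagonal.mem_antidiagonal]
      rw [hm, hl, ← Nat.mul_add] at hq
      exact Nat.eq_of_mul_eq_mul_left hpos hq
    · rw [zero_mul, map_zero]
  · intro q _
    have e1 : p ∣ p * q.1 := dvd_mul_right _ _
    have e2 : p * q.1 / p = q.1 := Nat.mul_div_cancel_left _ hpos
    change coeff q.1 g * coeff q.2 (PowerSeries.mk fun n => φ (coeff (p * n) f)) =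
      φ (coeff (p * q.1) (g ^ p) * coeff (p * q.2) f)
    rw [coeff_mk, coeff_pow_p, if_pos e1, e2, h]

theorem serphi_one {φ : R →+ R} (h : φ 1 = 1) : serphi p φ 1 = 1 := by
  have hpos : p ≠ 0 := hp.out.ne_zero
  ext n
  change coeff n (PowerSeries.mk fun n => φ (coeff (p * n) (1 : R⟦X⟧))) = _
  rw [coeff_mk, coeff_one, coeff_one]
  by_cases hn : n = 0
  · rw [if_pos hn, if_pos (by rw [hn, mul_zero]), h]
  · rw [if_neg hn, if_neg (mul_ne_zero hpos hn), map_zero]

end Series

/-- The counterexamples of characteristic `p` and dimension `d`, in terms of additive maps. -/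
def Bad (p d : ℕ) : Prop :=
  ∃ (R : Type) (_ : CommRing R) (_ : CharP R p) (_ : IsDomain R) (_ : IsRegularLocalRing R),
    ringKrullDim R = d ∧ (∃ φ : R →+ R, (∀ r x : R, φ (r ^ p * x) = r * φ x) ∧ φ 1 = 1) ∧
    ∃ c : R, c ≠ 0 ∧ ∀ (e : ℕ) (ψ : R →+ R),
      (∀ r x : R, ψ (r ^ (p ^ e) * x) = r * ψ x) → ψ c ≠ 1

theorem bad_two_aux [Pool.Agent.Lib_helper99.FSP.Pr] : Bad Pool.Agent.Lib_helper99.FSP.pp 2 := by
  classical
  open Pool.Agent.Lib_helper99.FSP in
  have hN : IsNoetherianRing RR := RR_main.1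
  refine ⟨Pool.Agent.Lib_helper99.FSP.RR, inferInstance, inferInstance, inferInstance, ?_, ?_,
    ⟨Pool.Agent.Lib_helper99.FSP.phiR, Pool.Agent.Lib_helper99.FSP.phiR_pow_mul,
      Pool.Agent.Lib_helper99.FSP.phiR_one⟩, Pool.Agent.Lib_helper99.FSP.rx,
      Pool.Agent.Lib_helper99.FSP.rx_ne, Pool.Agent.Lib_helper99.FSP.no_split⟩
  · apply IsRegularLocalRing.of_spanFinrank_maximalIdeal_le
    rw [Pool.Agent.Lib_helper99.FSP.RR_main.2.2, ← Pool.Agent.Lib_helper99.FSP.RR_main.2.1]
    have h1 : (Ideal.span ({Pool.Agent.Lib_helper99.FSP.rx, Pool.Agent.Lib_helper99.FSP.ry} :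
        Set Pool.Agent.Lib_helper99.FSP.RR)).spanFinrank ≤ 2 := by
      refine (Submodule.spanFinrank_span_le_ncard_of_finite (Set.toFinite _)).trans ?_
      rw [Set.ncard_pair Pool.Agent.Lib_helper99.FSP.rx_ne_ry]
    exact_mod_cast h1
  · rw [Pool.Agent.Lib_helper99.FSP.RR_main.2.2]
    rfl

theorem bad_two (p : ℕ) [hp : Fact p.Prime] : Bad p 2 := @bad_two_aux ⟨p, hp.out⟩

theorem bad_succ {p : ℕ} [hp : Fact p.Prime] {d : ℕ} (h : Bad p d) : Bad p (d + 1) := by
  obtain ⟨R, _, _, _, hreg, hdim, ⟨φ, hφ, hφ1⟩, c, hc, hψ⟩ := h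
  have hd1 : (d : WithBot ℕ∞) + 1 ≤ ringKrullDim R⟦X⟧ := by
    rw [← hdim]
    exact ringKrullDim_succ_le_ringKrullDim_powerseries
  have hmap : (maximalIdeal R⟦X⟧).map (constantCoeff (R := R)) ≤ maximalIdeal R := by
    rw [Ideal.map_le_iff_le_comap]
    intro f hf
    rw [Ideal.mem_comap]
    rw [IsLocalRing.mem_maximalIdeal, mem_nonunits_iff] at hf ⊢
    rwa [PowerSeries.isUnit_iff_constantCoeff] at hf
  have hmap' : (maximalIdeal R⟦X⟧).map (constantCoeff (R := R)) = maximalIdeal R := by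
    refine le_antisymm hmap fun r hr => ?_
    have e1 : constantCoeff (C r : R⟦X⟧) = r := constantCoeff_C r
    rw [← e1]
    apply Ideal.mem_map_of_mem
    rw [IsLocalRing.mem_maximalIdeal, mem_nonunits_iff] at hr ⊢
    rwa [PowerSeries.isUnit_iff_constantCoeff, e1]
  have hX : (X : R⟦X⟧) ∈ maximalIdeal R⟦X⟧ := by
    rw [IsLocalRing.mem_maximalIdeal, mem_nonunits_iff, PowerSeries.isUnit_iff_constantCoeff,
      constantCoeff_X]
    exact not_isUnit_zero
  have hfin : (maximalIdeal R⟦X⟧).spanFinrank ≤ d + 1 := by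
    refine (PowerSeries.spanFinrank_le_spanFinrank_map_constantCoeff_add_one_of_X_mem hX).trans ?_
    rw [hmap']
    have e1 := hreg.spanFinrank_maximalIdeal
    rw [hdim] at e1
    have e2 : (maximalIdeal R).spanFinrank = d := by exact_mod_cast e1
    rw [e2]
  have hle : ((maximalIdeal R⟦X⟧).spanFinrank : WithBot ℕ∞) ≤ ringKrullDim R⟦X⟧ := by
    refine le_trans ?_ hd1
    exact_mod_cast hfin
  have hregX : IsRegularLocalRing R⟦X⟧ := IsRegularLocalRing.of_spanFinrank_maximalIdeal_le _ hle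
  have hchar : CharP R⟦X⟧ p := charP_of_injective_ringHom (C_injective (R := R)) p
  refine ⟨R⟦X⟧, inferInstance, hchar, inferInstance, hregX, ?_,
    ⟨serphi p φ, serphi_mul hφ, serphi_one hφ1⟩, C c, ?_, fun e ψ hψ' hψc => ?_⟩
  · refine le_antisymm ?_ (by exact_mod_cast hd1)
    rw [← hregX.spanFinrank_maximalIdeal]
    exact_mod_cast hfin
  · intro h0
    apply hc
    apply C_injective (R := R)
    rw [h0, map_zero]
  · refine hψ e ((constantCoeff (R := R)).toAddMonoidHom.comp
      (ψ.comp (C (R := R)).toAddMonoidHom)) (fun r x => ?_) ?_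
    · change constantCoeff (ψ (C (r ^ (p ^ e) * x))) = r * constantCoeff (ψ (C x))
      rw [map_mul, map_pow, hψ', map_mul, constantCoeff_C]
    · change constantCoeff (ψ (C c)) = 1
      rw [hψc, map_one]

theorem bad (p : ℕ) [Fact p.Prime] (d : ℕ) (hd : 2 ≤ d) : Bad p d := by
  induction d, hd using Nat.le_induction with
  | base => exact bad_two p
  | succ d _ ih => exact bad_succ ih

/-- For every prime `p` and every `d ≥ 2` there is a regular local ring of dimension `d` and
characteristic `p` which is Frobenius split and not split F-regular. -/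
theorem result (p : ℕ) [Fact p.Prime] (d : ℕ) (hd : 2 ≤ d) :
    ∃ (R : Type) (_ : CommRing R) (_ : CharP R p), IsRegularLocalRing R ∧ ringKrullDim R = d ∧
      IsFrobeniusSplit R p ∧ ¬ IsSplitFRegular R p := by
  obtain ⟨R, i1, i2, i3, hreg, hdim, ⟨φ, hφ, hφ1⟩, c, hc, hψ⟩ := bad p d hd
  refine ⟨R, i1, i2, hreg, hdim, ⟨⟨⟨fun x => φ ((FPush.of R p 1).symm x), fun x y => ?_⟩,
    fun r x => ?_⟩, ?_⟩, fun hs => ?_⟩
  · rw [map_add, map_add]
  · obtain ⟨y, rfl⟩ := (FPush.of R p 1).surjective x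
    change φ ((FPush.of R p 1).symm (r • FPush.of R p 1 y)) =
      r * φ ((FPush.of R p 1).symm (FPush.of R p 1 y))
    rw [smul_of, AddEquiv.symm_apply_apply, AddEquiv.symm_apply_apply, pow_one, hφ]
  · change φ ((FPush.of R p 1).symm (FPush.of R p 1 1)) = 1
    rw [AddEquiv.symm_apply_apply, hφ1]
  · obtain ⟨e, -, ψ, hψ1⟩ := hs c (by
      intro P hP hcP
      rw [IsDomain.minimalPrimes_eq_singleton_bot, Set.mem_singleton_iff] at hP
      rw [hP] at hcP
      exact hc hcP)
    refine hψ e ⟨⟨fun x => ψ (FPush.of R p e x), ?_⟩, fun x y => ?_⟩ (fun r x => ?_) hψ1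
    · exact (congrArg ψ (map_zero (FPush.of R p e))).trans (map_zero ψ)
    · change ψ (FPush.of R p e (x + y)) = _
      rw [map_add, map_add]
    · change ψ (FPush.of R p e (r ^ (p ^ e) * x)) = r * ψ (FPush.of R p e x)
      rw [← smul_of, map_smul, smul_eq_mul]

end Pool.Agent.Results.MP_a0fd22_al.EveryPrimeDimension
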